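import Pool.Agent.Helper1.Stab.T.Sub

/-! Project T, packet C4: the good predicates (GC) and (GE). -/

open CategoryTheory Topology Filter Set Opposite

noncomputable section

namespace Pool.Agent.Helper5.Stab

open Pool.Agent.Helper1.Stab Pool.Agent.Helper63.Stab

variable {R : Biv}

theorem comp_neg5 {K L M : LC} (x : R.Hom K L) (y : R.Hom L M) :
    R.comp x (-y) = -R.comp x y := by
  have h := R.comp_add x y (-y)
  rw [add_neg_cancel, R.comp_zero] at h
  exact (neg_eq_of_add_eq_zero_right h.symm).symm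

theorem neg_comp5 {K L M : LC} (x : R.Hom K L) (y : R.Hom L M) :
    R.comp (-x) y = -R.comp x y := by
  have h := R.add_comp x (-x) y
  rw [add_neg_cancel, R.zero_comp] at h
  exact (neg_eq_of_add_eq_zero_right h.symm).symm

theorem tens_neg5 {K L : LC} (x : R.Hom K L) (Z : LC) : R.tens (-x) Z = -R.tens x Z := by
  have h := R.tens_add x (-x) Z
  rw [add_neg_cancel, R.tens_zero] at h
  exact (neg_eq_of_add_eq_zero_right h.symm).symm

theorem comp_sum5 {ι : Type} (s : Finset ι) {K L M : LC} (x : R.Hom K L) (y : ι → R.Hom L M) :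
    R.comp x (∑ i ∈ s, y i) = ∑ i ∈ s, R.comp x (y i) := by
  classical
  induction s using Finset.induction_on with
  | empty => simpa using R.comp_zero x
  | insert a s h ih => rw [Finset.sum_insert h, Finset.sum_insert h, R.comp_add, ih]

theorem sum_comp5 {ι : Type} (s : Finset ι) {K L M : LC} (x : ι → R.Hom K L) (y : R.Hom L M) :
    R.comp (∑ i ∈ s, x i) y = ∑ i ∈ s, R.comp (x i) y := by
  classical
  induction s using Finset.induction_on with
  | empty => simpa using R.zero_comp y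
  | insert a s h ih => rw [Finset.sum_insert h, Finset.sum_insert h, R.add_comp, ih]

theorem tens_sum5 {ι : Type} (s : Finset ι) {K L : LC} (x : ι → R.Hom K L) (Z : LC) :
    R.tens (∑ i ∈ s, x i) Z = ∑ i ∈ s, R.tens (x i) Z := by
  classical
  induction s using Finset.induction_on with
  | empty => simpa using R.tens_zero Z
  | insert a s h ih => rw [Finset.sum_insert h, Finset.sum_insert h, R.tens_add, ih]

/-- `(Z × W) × V = (Z × V) × W` -/
def swp (Z W V : LC) : (Z.prod W).prod V ≃ₜ (Z.prod V).prod W where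
  toFun x := ((x.1.1, x.2), x.1.2)
  invFun x := ((x.1.1, x.2), x.1.2)
  left_inv _ := rfl
  right_inv _ := rfl
  continuous_toFun := by fun_prop
  continuous_invFun := by fun_prop

/-- exchanging two spectators -/
theorem tens_tens_swp {K L : LC} (z : R.Hom K L) (W V : LC) :
    R.tens (R.tens z W) V = R.comp (jh R (swp K W V))
      (R.comp (R.tens (R.tens z V) W) (jh R (swp L V W))) := by
  rw [tens_tens_eq_pl, tens_tens_eq_pl, pl_jh, jh_pl]
  exact pl_congr z (LC.swap V W) _ _ _ _ (fun m => rfl) (fun n => rfl)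

/-- the associativity of spectators -/
theorem tens_tens_asc {K L : LC} (z : R.Hom K L) (V W : LC) :
    R.tens (R.tens z V) W = R.comp (jh R (ascH K V W))
      (R.comp (R.tens z (V.prod W)) (jh R (ascH L V W).symm)) := by
  rw [tens_tens_eq_pl]
  rfl

section com
variable {T : Biv} (ϖ : NTr T T)

theorem post_jh {K Z Z' : LC} (e : Z ≃ₜ Z') (x : T.Hom K Z) :
    ϖ.F (T.comp x (jh T e)) = T.comp (ϖ.F x) (jh T e) := ϖ.post _ x

theorem pre_jh {K K' Z : LC} (e : K' ≃ₜ K) (x : T.Hom K Z) :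
    ϖ.F (T.comp (jh T e) x) = T.comp (jh T e) (ϖ.F x) := ϖ.pre _ x

theorem com_J {K Z : LC} (f : PMap K Z.plus) : ϖ.Com (T.J f) := by
  intro M W x
  rw [T.tens_J]
  exact ϖ.post _ x

theorem com_add {K Z : LC} (x y : T.Hom K Z) (hx : ϖ.Com x) (hy : ϖ.Com y) : ϖ.Com (x + y) := by
  intro M W c
  rw [T.tens_add, T.comp_add, T.comp_add, ϖ.add, hx, hy]

theorem com_neg {K Z : LC} (x : T.Hom K Z) (hx : ϖ.Com x) : ϖ.Com (-x) := by
  intro M W c
  rw [tens_neg5, comp_neg5, comp_neg5, ϖ.map_neg, hx]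

theorem com_comp {K L Z : LC} (x : T.Hom K L) (y : T.Hom L Z) (hx : ϖ.Com x) (hy : ϖ.Com y) :
    ϖ.Com (T.comp x y) := by
  intro M W c
  rw [T.tens_comp, ← T.assoc, hy, hx, T.assoc]

theorem com_tens {K Z : LC} (x : T.Hom K Z) (V : LC) (hx : ϖ.Com x) : ϖ.Com (T.tens x V) := by
  intro M W c
  rw [tens_tens_asc, ← T.assoc, ← T.assoc, post_jh, hx, post_jh]
  simp only [T.assoc]

theorem com_susp {K Z : LC} (x : T.Hom K Z) (hx : ϖ.Com (T.tens x LC.C)) : ϖ.Com x := by
  intro M W c
  refine (T.tens_C_bijective _ _).1 ?_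
  change T.tens (ϖ.F _) LC.C = T.tens (T.comp (ϖ.F c) (T.tens x W)) LC.C
  rw [← ϖ.tens, T.tens_comp, T.tens_comp, tens_tens_swp, ← T.assoc, ← T.assoc, post_jh, hx,
    post_jh, ϖ.tens]
  simp only [T.assoc]

theorem com_split {K L : LC} (s : T.Hom K L) (r : T.Hom L K) (hs : ϖ.Com s)
    (hsr : ϖ.Com (T.comp s r)) (h : T.comp r s = T.J (PMap.id L)) : ϖ.Com r := by
  intro M W c
  have h1 : T.comp (T.comp c (T.tens r W)) (T.tens s W) = c := by
    rw [T.assoc, ← T.tens_comp, h, tens_id, T.comp_id]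
  have h2 : ϖ.F c = T.comp (ϖ.F (T.comp c (T.tens r W))) (T.tens s W) := by
    rw [← hs, h1]
  rw [h2, T.assoc, ← T.tens_comp, ← hsr, T.assoc, ← T.tens_comp, ← T.assoc, h, T.id_comp]

theorem com_dual {K : LC} (n : ℕ) (Z : ℕ → LC) (u : ∀ i, T.Hom K (Z i)) (b : ∀ i, T.Hom (Z i) K)
    (hu : ∀ i < n, ϖ.Com (u i)) (h1 : ∑ i ∈ Finset.range n, T.comp (u i) (b i) = T.J (PMap.id K))
    (h2 : ∀ i < n, ∀ j < n, i ≠ j → T.comp (b i) (u j) = 0)
    (h3 : ∀ i < n, T.comp (b i) (u i) = T.J (PMap.id (Z i))) : ∀ i < n, ϖ.Com (b i) := by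
  intro i hi M W c
  set z := T.comp c (T.tens (b i) W) with hz
  have e1 : ϖ.F z = ∑ j ∈ Finset.range n,
      T.comp (ϖ.F (T.comp z (T.tens (u j) W))) (T.tens (b j) W) := by
    have h4 : ϖ.F z = T.comp (ϖ.F z) (T.tens (∑ j ∈ Finset.range n, T.comp (u j) (b j)) W) := by
      rw [h1, tens_id, T.comp_id]
    rw [h4, tens_sum5, comp_sum5]
    refine Finset.sum_congr rfl fun j hj => ?_
    rw [hu j (Finset.mem_range.1 hj), T.tens_comp, T.assoc]
  rw [e1, Finset.sum_eq_single i]
  · rw [hz, T.assoc, ← T.tens_comp, h3 i hi, tens_id, T.comp_id]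
  · intro j hj hji
    rw [hz, T.assoc, ← T.tens_comp, h2 i hi j (Finset.mem_range.1 hj) (Ne.symm hji), T.tens_zero,
      T.comp_zero, ϖ.map_zero, T.zero_comp]
  · intro hn
    exact absurd (Finset.mem_range.2 hi) hn

/-- (GC) the elements over which a transformation is linear -/
theorem good_com : Good T (fun z => ϖ.Com z) where
  J f := com_J ϖ f
  add x y hx hy := com_add ϖ x y hx hy
  neg x hx := com_neg ϖ x hx
  comp x y hx hy := com_comp ϖ x y hx hy
  tens x V hx := com_tens ϖ x V hx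
  susp x hx := com_susp ϖ x hx
  split s r hs hsr h := com_split ϖ s r hs hsr h
  dual n Z u b hu h1 h2 h3 := com_dual ϖ n Z u b hu h1 h2 h3

end com

/-- (GE) the elements on which two morphisms agree -/
theorem good_eq {R T : Biv} (F G : BivHom R T) : Good R (fun z => F.F z = G.F z) where
  J f := by rw [F.J, G.J]
  add x y hx hy := by rw [F.add, G.add, hx, hy]
  neg x hx := by rw [F.map_neg, G.map_neg, hx]
  comp x y hx hy := by rw [F.comp, G.comp, hx, hy]
  tens x V hx := by rw [F.tens, G.tens, hx]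
  susp x hx := by
    refine (T.tens_C_bijective _ _).1 ?_
    change T.tens (F.F x) LC.C = T.tens (G.F x) LC.C
    rw [← F.tens, ← G.tens, hx]
  split {K L} s r hs hsr h := by
    have h1 : R.comp r (R.comp s r) = r := by rw [← R.assoc, h, R.id_comp]
    calc F.F r = T.comp (F.F r) (F.F (R.comp s r)) := by rw [← F.comp, h1]
      _ = T.comp (F.F r) (G.F (R.comp s r)) := by rw [hsr]
      _ = T.comp (T.comp (F.F r) (F.F s)) (G.F r) := by rw [G.comp, hs, T.assoc]
      _ = T.comp (F.F (R.comp r s)) (G.F r) := by rw [F.comp]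
      _ = G.F r := by rw [h, F.J, T.id_comp]
  dual {K} n Z u b hu h1 h2 h3 := by
    intro i hi
    have e1 : F.F (b i) = ∑ j ∈ Finset.range n, T.comp (F.F (R.comp (b i) (u j))) (G.F (b j)) := by
      have h4 : F.F (b i) = T.comp (F.F (b i))
          (G.F (∑ j ∈ Finset.range n, R.comp (u j) (b j))) := by
        rw [h1, G.J, T.comp_id]
      rw [G.map_sum, comp_sum5] at h4
      rw [h4]
      refine Finset.sum_congr rfl fun j hj => ?_
      rw [G.comp, F.comp, hu j (Finset.mem_range.1 hj), T.assoc]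
    rw [e1, Finset.sum_eq_single i]
    · rw [h3 i hi, F.J, T.id_comp]
    · intro j hj hji
      rw [h2 i hi j (Finset.mem_range.1 hj) (Ne.symm hji), F.map_zero, T.zero_comp]
    · intro hn
      exact absurd (Finset.mem_range.2 hi) hn

end Pool.Agent.Helper5.Stab
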