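import Pool.Agent.Helper84.Int.Alg
import Pool.Agent.Helper84.Sn.TeleKit

/-! Project T, packet U5: the theory is a retract of the telescope of `tele_sum`. -/

open CategoryTheory Topology Filter Set Opposite

noncomputable section

namespace Pool.Agent.Helper5.Stab

open Pool.Agent.Helper1.Stab Pool.Agent.Helper84.Sn

theorem tele_sum_unit {R : Biv} (o : Orient R) (P : PRTheory R) {V : LC}
    (φ : V ≃ₜ (Cn 1).prod (Cn 1)) (x : P.Hom V LC.point) (q : ∀ i : ℕ, R.Hom V (Cn i))
    (hx : x = (∑ i ∈ Finset.range 4, P.comp (P.inc (q i)) (P.b o i)) -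
        P.comp (P.J (PMap.ofHomeo φ)) (P.mulPt (P.b o 1) (P.b o 1)))
    (β : R.Hom LC.C LC.point) (hβ : R.Iv β) (N : TeleGF P.toBiv x) :
    ∃ r : N.H ⟶ R.gf, ∀ (b : ℕ) (K : Test) (z : R.Hom K.obj (Zb b)),
      GF.evm b K r (N.cls 0 (K := K) (tcI P V z)) = z := by
  classical
  obtain ⟨γ, hβγ, hγβ⟩ := hβ
  let q0 : Per R LC.C := ⟨β, γ, hβγ, hγβ⟩
  obtain ⟨p, hp⟩ : ∃ p : Per R V, p = Per.homeo φ ((Per.cn q0 1).prod (Per.cn q0 1)) := ⟨_, rfl⟩
  have hxh := nrm_x P o q0 φ x q hx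
  rw [← hp] at hxh
  obtain ⟨cf, c1, c2, c3, c4, c5, c6, c7⟩ := exists_coef P o q0
    (fun i => R.comp p.c (R.comp (q i) (Per.cn q0 i).b)) (nrm P p x) hxh
  obtain ⟨M0, hM0⟩ : ∃ M0 : PL2, M0.1 = [] := ⟨⟨[], List.Pairwise.nil, by simp⟩, rfl⟩
  -- the projection
  obtain ⟨F, hF⟩ := tele_lift N R.gf
    (fun b n K => AddMonoidHom.mk' (M := P.Hom ((LC.ipow V n).prod K.obj) (Zb b))
      (G := R.Hom K.obj (Zb b)) (fun y => cf K.obj (Zb b) (n, false, M0) (th P p n y)) (by
        intro y y'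
        rw [th_add, map_add]))
    (by
      intro b n K y
      change cf K.obj (Zb b) (n + 1, false, M0) (th P p (n + 1) (P.toBiv.nextx x y)) =
        cf K.obj (Zb b) (n, false, M0) (th P p n y)
      rw [th_next]
      exact c4 _ _ _ _ _ _)
    (by
      intro b n K L f y
      change cf K.obj (Zb b) (n, false, M0)
        (th P p n (P.comp (P.J (PMap.ltens (LC.ipow V n) f)) y)) = _
      rw [th_nat]
      have h1 := c6 L.obj K.obj (Zb b) (n, false, M0) (R.J f) (th P p n y)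
      rw [P.inc_J] at h1
      exact h1)
    (by
      intro b n K y
      have h0 := th_ltens P p n y
      have h1 := c7 K.obj (Zb b) LC.C (n, false, M0) (th P p n y)
      rw [← h0] at h1
      exact h1)
  refine ⟨F, fun b K z => ?_⟩
  refine (hF b 0 K (tcI P V z)).trans ?_
  change cf K.obj (Zb b) (0, false, M0) (th P p 0 (tcI P V z)) = z
  have h1 : th P p 0 (tcI P V z) = P.inc z := th_zero_inc P p (P.inc z)
  rw [h1]
  have h2 : eA P o (nrm P p x) q0 (0, false, M0) = P.J (PMap.id LC.point) := by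
    unfold eA
    simp only [List.replicate_zero, prodL, hM0, Bool.false_eq_true, if_false]
    rw [P.id_comp, P.id_comp]
  have h3 := c2 K.obj (Zb b) (0, false, M0) z
  rw [h2, act_one] at h3
  exact h3

end Pool.Agent.Helper5.Stab
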